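import Pool.Agent.Y563.SA.C

set_option autoImplicit false

/-!
# Polynomial maps arbitrarily close to the power map, with a postcritical set that is a topological
cone, and not topologically conjugated to it

For all `n ≥ 3`, `d ≥ 2` and `k` the map is
`f(z) = (z₀^d - c (z₁^(q+2) z₂^(q+1))^d, z₁^d, …, z_{n-1}^d)` with `(-c)^d = c ≠ 0` and `q = k`; its
leading term is `H(z) = (z₀^d, …, z_{n-1}^d)` and `f - H` vanishes to order at least `k`.
-/

namespace Pool.Agent.Results.MP_e6fcc0_an.AllOrdersOfContact

open Filter Topology Pool.Agent.Y563.SA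
open Pool.Agent.H824.Sa (polyMap IsSuperattracting IsLeadingTerm IsNonDegenerate IsTopologicalCone
  IsTopConj)

/-- the polynomials that define the map -/
noncomputable def PF (m p q : ℕ) (c : ℂ) : Fin (m + 3) → MvPolynomial (Fin (m + 3)) ℂ :=
  fun i => MvPolynomial.X i ^ (p + 2) - if i = 0 then MvPolynomial.C c *
    (MvPolynomial.X 1 ^ (q + 2) * MvPolynomial.X 2 ^ (q + 1)) ^ (p + 2) else 0

theorem polyMap_PF (m p q : ℕ) (c : ℂ) : polyMap (PF m p q c) = F m p q c := by
  funext z i
  by_cases hi : i = 0
  · subst hi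
    rw [F_zero]
    simp [polyMap, PF]
  · rw [F_ne m p q c z hi]
    simp [polyMap, PF, hi]

/-- For every dimension `n ≥ 3`, every degree `d ≥ 2` and every order `k` there is a polynomial
map `P` of `ℂⁿ` which is superattracting at the origin, has there the non-degenerate leading
homogeneous term `H(z) = (z₀^d, …, z_{n-1}^d)` and differs from `H` by terms of order at least `k`
only, such that the postcritical set of `P` is a topological cone near the origin, and `P` is not
topologically locally conjugated to `H`. -/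
theorem result (n : ℕ) (hn : 3 ≤ n) (d : ℕ) (hd : 2 ≤ d) (k : ℕ) :
    ∃ P : Fin n → MvPolynomial (Fin n) ℂ,
      IsSuperattracting (polyMap P) ∧
      IsLeadingTerm (polyMap P) d (fun i => MvPolynomial.X i ^ d) ∧
      IsNonDegenerate (fun i : Fin n => (MvPolynomial.X i ^ d : MvPolynomial (Fin n) ℂ)) ∧
      (fun z : Fin n → ℂ => polyMap P z - polyMap (fun i => MvPolynomial.X i ^ d) z) =O[𝓝 0]
        (fun z : Fin n → ℂ => ‖z‖ ^ k) ∧
      IsTopologicalCone (polyMap P) ∧
      ¬ IsTopConj (polyMap P) (polyMap (fun i => MvPolynomial.X i ^ d)) := by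
  obtain ⟨m, rfl⟩ := Nat.exists_eq_add_of_le' hn
  obtain ⟨p, rfl⟩ := Nat.exists_eq_add_of_le' hd
  obtain ⟨c, hc0, hc⟩ := exists_c p
  refine ⟨PF m p k c, ?_⟩
  rw [polyMap_PF]
  exact ⟨isSuperattracting_F m p k c, isLeadingTerm_F m p k c, isNonDegenerate_Q m p,
    contact m p k c k (by nlinarith), isTopologicalCone_F m p k c hc, not_conj m p k c hc0⟩

end Pool.Agent.Results.MP_e6fcc0_an.AllOrdersOfContact
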